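import Pool.Agent.H.MP_3aeeeb_co.A

set_option autoImplicit false

namespace Pool.Agent.Results.MP_3aeeeb_co.Yes

open Matrix SimpleGraph

/-- A lies in S(G). -/
def InS {n : ℕ} (G : SimpleGraph (Fin n)) (A : Matrix (Fin n) (Fin n) ℝ) : Prop :=
  A.IsSymm ∧ ∀ i j, i ≠ j → (A i j ≠ 0 ↔ G.Adj i j)

/-- The strong spectral property. -/
def SSP {n : ℕ} (A : Matrix (Fin n) (Fin n) ℝ) : Prop :=
  ∀ X : Matrix (Fin n) (Fin n) ℝ, X.IsSymm → A ⊙ X = 0 → (1 : Matrix (Fin n) (Fin n) ℝ) ⊙ X = 0 →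
    A * X - X * A = 0 → X = 0

def IsSSP {n : ℕ} (G : SimpleGraph (Fin n)) : Prop := ∀ A, InS G A → SSP A

/-- Connected, with exactly one cycle (cycles are compared by their edge sets). -/
def Unicyclic {n : ℕ} (G : SimpleGraph (Fin n)) : Prop :=
  G.Connected ∧ ∃! s : Finset (Sym2 (Fin n)),
    ∃ (v : Fin n) (c : G.Walk v v), c.IsCycle ∧ c.edges.toFinset = s

/-- The tadpole: cycle 0, ..., m-1, path m, ..., m+n-1, bridge from 0 to m (the cycle if n = 0). -/
def tad (m n : ℕ) : SimpleGraph (Fin (m + n)) := fromRel fun i j =>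
  (i.val + 1 = j.val ∧ j.val ≠ m) ∨ (i.val = 0 ∧ (j.val + 1 = m ∨ j.val = m))

def E : List (ℕ × ℕ) := [(0, 1), (1, 2), (2, 3), (0, 3), (0, 4), (1, 5), (5, 6), (6, 7)]

def Gr : SimpleGraph (Fin 8) := fromRel fun a b => (a.val, b.val) ∈ E

instance : DecidableRel Gr.Adj := fun _ _ => inferInstanceAs (Decidable (_ ∧ _))

instance (m n : ℕ) : DecidableRel (tad m n).Adj := fun _ _ => inferInstanceAs (Decidable (_ ∧ _))

theorem ssp : IsSSP Gr := by
  rintro A ⟨hs, hA⟩ X hX h1 h2 h3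
  have z : ∀ i j, i ≠ j → ¬ Gr.Adj i j → A i j = 0 := fun i j h h' => by
    by_contra hc; exact h' ((hA i j h).1 hc)
  have nz : ∀ i j, Gr.Adj i j → A i j ≠ 0 := fun i j h => (hA i j h.ne).2 h
  have xd : ∀ i, X i i = 0 := fun i => by simpa using congrFun (congrFun h2 i) i
  have xe : ∀ i j, Gr.Adj i j → X i j = 0 := fun i j h => by
    simpa [nz i j h] using congrFun (congrFun h1 i) j
  exact Pool.Agent.H.MP_3aeeeb_co.core A X (fun i j => hs.apply j i) z nz
    (fun i j => hX.apply j i) xd xe (sub_eq_zero.1 h3)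

def c4 : Gr.Walk 0 0 := .cons (v := 1) (by decide) (.cons (v := 2) (by decide)
  (.cons (v := 3) (by decide) (.cons (v := 0) (by decide) .nil)))

theorem c4_cycle : c4.IsCycle := by
  rw [Walk.isCycle_def, Walk.isTrail_def]
  refine ⟨by decide, by simp [c4], by decide⟩

theorem br (a b : Fin 8) (f : Fin 8 → Bool) (h : Gr.Adj a b) (h1 : f a ≠ f b)
    (h2 : ∀ x y, Gr.Adj x y → s(x, y) ≠ s(a, b) → f x = f y) {v : Fin 8} (c : Gr.Walk v v)
    (hc : c.IsCycle) : s(a, b) ∉ c.edges := by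
  refine (isBridge_iff_forall_cycle_notMem (by exact h)).1 ?_ c hc
  rw [isBridge_iff]
  rintro ⟨p⟩
  have : ∀ {x y : Fin 8} (_ : (Gr.deleteEdges {s(a, b)}).Walk x y), f x = f y := by
    intro x y p
    induction p with
    | nil => rfl
    | cons h _ ih =>
      rw [deleteEdges_adj] at h
      exact (h2 _ _ h.1 (by simpa using h.2)).trans ih
  exact h1 (this p)

theorem four {v : Fin 8} (c : Gr.Walk v v) (hc : c.IsCycle) : 4 ≤ c.length := by
  have h3 := hc.three_le_length
  by_contra h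
  obtain ⟨s, hs⟩ := (is3Clique_iff_exists_cycle_length_three (G := Gr)).2 ⟨v, c, hc, by omega⟩
  obtain ⟨a, b, c, h1, h2, h3, -⟩ := is3Clique_iff.1 hs
  revert a b c
  decide

theorem result : ∃ (N : ℕ) (G : SimpleGraph (Fin N)), Unicyclic G ∧ G.girth = 4 ∧ IsSSP G ∧
    ∀ n, IsEmpty (G ≃g tad 4 n) ∧ IsEmpty (G ≃g tad 5 n) := by
  refine ⟨8, Gr, ⟨?_, _, ⟨0, c4, c4_cycle, rfl⟩, ?_⟩, ?_, ssp, fun n => ?_⟩
  · have r : ∀ a b, Gr.Adj a b → Gr.Reachable 0 a → Gr.Reachable 0 b := fun a b h h' =>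
      h'.trans h.reachable
    have r0 := Reachable.refl (G := Gr) 0
    have r1 := r 0 1 (by decide) r0
    have r5 := r 1 5 (by decide) r1
    have r6 := r 5 6 (by decide) r5
    refine (connected_iff_exists_forall_reachable _).2 ⟨0, fun w => ?_⟩
    fin_cases w
    exacts [r0, r1, r 1 2 (by decide) r1, r 0 3 (by decide) r0, r 0 4 (by decide) r0, r5, r6,
      r 6 7 (by decide) r6]
  · rintro _ ⟨v, c, hc, rfl⟩
    apply Finset.eq_of_subset_of_card_le
    · intro e he
      rw [List.mem_toFinset] at he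
      have b1 := br 0 4 (fun x => x = 4) (by decide) (by decide) (by decide) c hc
      have b2 := br 1 5 (fun x => 5 ≤ x) (by decide) (by decide) (by decide) c hc
      have b3 := br 5 6 (fun x => 6 ≤ x) (by decide) (by decide) (by decide) c hc
      have b4 := br 6 7 (fun x => x = 7) (by decide) (by decide) (by decide) c hc
      induction e using Sym2.ind with
      | _ x y =>
        have h1 := c.adj_of_mem_edges he
        have h2 : s(x, y) ≠ s(0, 4) ∧ s(x, y) ≠ s(1, 5) ∧ s(x, y) ≠ s(5, 6) ∧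
            s(x, y) ≠ s(6, 7) :=
          ⟨fun h => b1 (h ▸ he), fun h => b2 (h ▸ he), fun h => b3 (h ▸ he), fun h => b4 (h ▸ he)⟩
        clear he
        revert x y
        decide
    · rw [List.toFinset_card_of_nodup hc.isTrail.edges_nodup, Walk.length_edges]
      exact le_trans (by decide) (four c hc)
  · refine le_antisymm (girth_le_length c4_cycle) ?_
    obtain ⟨a, w, hw, h⟩ := (exists_girth_eq_length (G := Gr)).2 fun h => h c4 c4_cycle
    rw [h]
    exact four w hw
  · have key : ∀ m, (Gr ≃g tad m n) → m + n = 8 ∧ ∃ v w, v ≠ w ∧ (∃ a, ∀ b, (tad m n).Adj v b → b = a) ∧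
        ∃ a, ∀ b, (tad m n).Adj w b → b = a := by
      intro m φ
      refine ⟨by simpa using (Fintype.card_congr φ.toEquiv).symm, φ 4, φ 7, by simp,
        ⟨φ 0, fun b hb => ?_⟩, φ 6, fun b hb => ?_⟩
      · obtain ⟨b, rfl⟩ := φ.surjective b
        rw [φ.map_adj_iff] at hb
        congr 1
        revert b
        decide
      · obtain ⟨b, rfl⟩ := φ.surjective b
        rw [φ.map_adj_iff] at hb
        congr 1
        revert b
        decide
    constructor
    · refine ⟨fun φ => ?_⟩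
      obtain ⟨h1, h2⟩ := key 4 φ
      obtain rfl : n = 4 := by omega
      revert h2
      decide
    · refine ⟨fun φ => ?_⟩
      obtain ⟨h1, h2⟩ := key 5 φ
      obtain rfl : n = 3 := by omega
      revert h2
      decide

end Pool.Agent.Results.MP_3aeeeb_co.Yes
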